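import Pool.Agent.H83.FD.TargetsB

/-!
MP_ee74d2_an, Frostman data: row (TBX), the energy in a tube.
-/

set_option autoImplicit false

namespace Pool.Agent.H13.FD

open Pool.Agent.H83.G Pool.Agent.H83.FD MeasureTheory Set
open scoped ENNReal NNReal RealInnerProductSpace

theorem summ : Summable fun j : ℤ => ((1 + |(j : ℝ)|) ^ 2)⁻¹ := by
  have h1 : Summable fun n : ℕ => ((1 + (n : ℝ)) ^ 2)⁻¹ := by
    have h2 := (summable_nat_add_iff 1).2 (Real.summable_nat_pow_inv.2 (by norm_num : 1 < 2))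
    refine h2.congr fun n => ?_
    push_cast
    rw [add_comm]
  refine Summable.of_nat_of_neg ?_ ?_
  · refine h1.congr fun n => ?_
    simp
  · refine h1.congr fun n => ?_
    simp

theorem sumZ : ∃ C : ℝ, 0 ≤ C ∧ ∀ (J : Finset ℤ) (u : ℝ), ∑ l ∈ J, ((1 + |u - l|) ^ 2)⁻¹ ≤ C := by
  classical
  refine ⟨4 * ∑' j : ℤ, ((1 + |(j : ℝ)|) ^ 2)⁻¹, ?_, ?_⟩
  · exact mul_nonneg (by norm_num) (tsum_nonneg fun j => by positivity)
  · intro J u
    have h1 : ∀ l : ℤ, ((1 + |u - l|) ^ 2)⁻¹ ≤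
        4 * ((1 + |((l - ⌊u⌋ : ℤ) : ℝ)|) ^ 2)⁻¹ := by
      intro l
      have h2 : |((l - ⌊u⌋ : ℤ) : ℝ)| ≤ |u - l| + 1 := by
        have h3 : ((l - ⌊u⌋ : ℤ) : ℝ) = -(u - l) + (u - ⌊u⌋) := by push_cast; ring
        rw [h3]
        refine (abs_add_le _ _).trans ?_
        rw [abs_neg]
        have h4 : |u - ⌊u⌋| ≤ 1 := by
          rw [abs_le]
          constructor
          · linarith [Int.floor_le u]
          · linarith [Int.lt_floor_add_one u]
        linarith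
      have h5 : (1 + |((l - ⌊u⌋ : ℤ) : ℝ)|) ^ 2 ≤ 4 * (1 + |u - l|) ^ 2 := by
        have h6 : 1 + |((l - ⌊u⌋ : ℤ) : ℝ)| ≤ 2 * (1 + |u - l|) := by
          linarith [abs_nonneg (u - l)]
        calc (1 + |((l - ⌊u⌋ : ℤ) : ℝ)|) ^ 2 ≤ (2 * (1 + |u - l|)) ^ 2 := by gcongr
          _ = 4 * (1 + |u - l|) ^ 2 := by ring
      have h7 : (0 : ℝ) < (1 + |u - l|) ^ 2 := by positivity
      have h8 : (0 : ℝ) < (1 + |((l - ⌊u⌋ : ℤ) : ℝ)|) ^ 2 := by positivity
      rw [← div_eq_mul_inv, le_div_iff₀ h8, ← div_eq_inv_mul, div_le_iff₀ h7]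
      exact h5
    calc ∑ l ∈ J, ((1 + |u - l|) ^ 2)⁻¹
        ≤ ∑ l ∈ J, 4 * ((1 + |((l - ⌊u⌋ : ℤ) : ℝ)|) ^ 2)⁻¹ := Finset.sum_le_sum fun l _ => h1 l
      _ = 4 * ∑ j ∈ J.image (fun l => l - ⌊u⌋), ((1 + |(j : ℝ)|) ^ 2)⁻¹ := by
          rw [← Finset.mul_sum, Finset.sum_image]
          intro a _ b _ e
          have : a - ⌊u⌋ = b - ⌊u⌋ := e
          omega
      _ ≤ 4 * ∑' j : ℤ, ((1 + |(j : ℝ)|) ^ 2)⁻¹ := by
          refine mul_le_mul_of_nonneg_left ?_ (by norm_num)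
          exact summ.sum_le_tsum _ fun j _ => by positivity

theorem TP_smul {m : ℕ} (c : ℂ) (φ : E m → ℂ) (η : E m) (s : ℝ) (G : Z m → ℂ) (z : Z m) :
    TP (fun x => c * φ x) η s G z = c * TP φ η s G z := by
  unfold TP TF cp
  rw [← integral_const_mul]
  congr 1
  funext ζ
  ring

/-- the centre of the tube -/
noncomputable def xT {m : ℕ} (R : ℝ) (T : Pk m) : Z m :=
  ((((⌈Real.sqrt R⌉ * T.2.1 : ℤ) : ℝ)) / Real.sqrt R, (zc T.2).2)

theorem ptw (m N : ℕ) (hN : 2 ≤ N) : ∃ C : ℝ, 0 ≤ C ∧ ∀ (R δ : ℝ) (S : Finset (Pk m)) (T : Pk m)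
    (z : Z m), 1 ≤ R → (∀ W ∈ S, tb R W = T) →
    ∑ W ∈ S, wt N (fc R δ W.1 z - zc W.2) ≤
      C * wt (N - 2) (R ^ (-δ) • St (ctr (sR R) T.1) (sR R) (Real.sqrt R) R z - xT R T) := by
  classical
  obtain ⟨C, hC0, hC⟩ := sumZ
  refine ⟨C * 3 ^ (N - 2), by positivity, ?_⟩
  intro R δ S T z hR hS
  have hq1 : 1 ≤ Real.sqrt R := by
    rw [← Real.sqrt_one]
    exact Real.sqrt_le_sqrt hR
  have hq0 : 0 < Real.sqrt R := by linarith
  set q := Real.sqrt R with hq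
  set n : ℤ := ⌈q⌉ with hn
  have hn1 : 1 ≤ n := by
    have : (0 : ℤ) < n := Int.ceil_pos.2 hq0
    omega
  have hnq : (n : ℝ) ≤ 2 * q := by
    have := Int.ceil_lt_add_one q
    linarith
  have hRs : R * sR R ^ 2 = 1 := by
    unfold sR
    rw [inv_pow, Real.sq_sqrt (by linarith)]
    exact mul_inv_cancel₀ (by linarith)
  set c : ℝ := R ^ (-δ) with hc
  set P : Z m := Lo (ctr (sR R) T.1) (sR R) z with hP
  have hSt : St (ctr (sR R) T.1) (sR R) q R z = (q⁻¹ * P.1, P.2) := by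
    unfold St
    rw [hRs, inv_one, one_smul]
  set X : ℝ := ‖c • St (ctr (sR R) T.1) (sR R) q R z - xT R T‖ with hX
  have hparts : ∀ W ∈ S, W.1 = T.1 ∧ W.2.1 / n = T.2.1 ∧ W.2.2 = T.2.2 := by
    intro W hW
    have h := hS W hW
    unfold tb at h
    rw [← h]
    exact ⟨rfl, rfl, rfl⟩
  have hterm : ∀ W ∈ S, wt N (fc R δ W.1 z - zc W.2) ≤
      ((1 + |c * P.1 - W.2.1|) ^ 2)⁻¹ * (3 ^ (N - 2) * wt (N - 2)
        (c • St (ctr (sR R) T.1) (sR R) q R z - xT R T)) := by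
    intro W hW
    obtain ⟨h1, h2, h3⟩ := hparts W hW
    have e1 : fc R δ W.1 z = c • P := by
      unfold fc
      rw [h1]
    set D : ℝ := ‖c • P - zc W.2‖ with hD
    have e2 : |c * P.1 - W.2.1| ≤ D := by
      have := norm_fst_le (c • P - zc W.2)
      exact this
    have e3 : ‖c • P.2 - (zc W.2).2‖ ≤ D := norm_snd_le (c • P - zc W.2)
    have e4 : (zc W.2 : Z m).2 = (zc T.2).2 := by
      unfold zc
      rw [h3]
    have hl1 : n * T.2.1 ≤ W.2.1 := by
      rw [← h2, mul_comm]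
      exact Int.ediv_mul_le _ (by omega)
    have hl2 : W.2.1 < n * T.2.1 + n := by
      rw [← h2]
      have := Int.lt_ediv_add_one_mul_self W.2.1 (by omega : 0 < n)
      linarith
    have hXle : X ≤ D + 2 := by
      rw [hX, hSt]
      have e5 : c • ((q⁻¹ * P.1, P.2) : Z m) - xT R T =
          (c * (q⁻¹ * P.1) - ((n * T.2.1 : ℤ) : ℝ) / q, c • P.2 - (zc T.2).2) := rfl
      rw [e5, Prod.norm_def]
      refine max_le ?_ ?_
      · show |c * (q⁻¹ * P.1) - ((n * T.2.1 : ℤ) : ℝ) / q| ≤ D + 2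
        have e6 : c * (q⁻¹ * P.1) - ((n * T.2.1 : ℤ) : ℝ) / q =
            ((c * P.1 - W.2.1) + ((W.2.1 : ℝ) - ((n * T.2.1 : ℤ) : ℝ))) / q := by
          field_simp
          ring
        rw [e6, abs_div, abs_of_pos hq0, div_le_iff₀ hq0]
        have e7 : |(W.2.1 : ℝ) - ((n * T.2.1 : ℤ) : ℝ)| ≤ n := by
          rw [abs_le]
          have a1 : ((n * T.2.1 : ℤ) : ℝ) ≤ (W.2.1 : ℝ) := by exact_mod_cast hl1
          have a2 : (W.2.1 : ℝ) < ((n * T.2.1 + n : ℤ) : ℝ) := by exact_mod_cast hl2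
          have a3 : (1 : ℝ) ≤ n := by exact_mod_cast hn1
          push_cast at a1 a2 ⊢
          constructor
          · linarith
          · linarith
        have e8 := abs_add_le (c * P.1 - W.2.1) ((W.2.1 : ℝ) - ((n * T.2.1 : ℤ) : ℝ))
        have hD0 : 0 ≤ D := norm_nonneg _
        nlinarith
      · rw [← e4]
        linarith
    have hD0 : 0 ≤ D := norm_nonneg _
    have hX0 : 0 ≤ X := norm_nonneg _
    have e9 : ((1 + D) ^ (N - 2))⁻¹ ≤ 3 ^ (N - 2) * ((1 + X) ^ (N - 2))⁻¹ := by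
      rw [← div_eq_mul_inv, le_div_iff₀ (by positivity), ← div_eq_inv_mul,
        div_le_iff₀ (by positivity), ← mul_pow]
      gcongr
      linarith
    have e10 : ((1 + D) ^ 2)⁻¹ ≤ ((1 + |c * P.1 - W.2.1|) ^ 2)⁻¹ := by
      gcongr
    have e11 : wt N (fc R δ W.1 z - zc W.2) = ((1 + D) ^ 2)⁻¹ * ((1 + D) ^ (N - 2))⁻¹ := by
      unfold wt
      rw [e1, ← hD, ← mul_inv, ← pow_add]
      congr 2
      omega
    rw [e11]
    unfold wt
    rw [← hX]
    exact mul_le_mul e10 e9 (by positivity) (by positivity)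
  have hinj : Set.InjOn (fun W : Pk m => W.2.1) (S : Set (Pk m)) := by
    intro W hW W' hW' e
    obtain ⟨h1, _, h3⟩ := hparts W hW
    obtain ⟨h1', _, h3'⟩ := hparts W' hW'
    have e' : W.2.1 = W'.2.1 := e
    refine Prod.ext (h1.trans h1'.symm) (Prod.ext e' (h3.trans h3'.symm))
  calc ∑ W ∈ S, wt N (fc R δ W.1 z - zc W.2)
      ≤ ∑ W ∈ S, ((1 + |c * P.1 - W.2.1|) ^ 2)⁻¹ * (3 ^ (N - 2) * wt (N - 2)
        (c • St (ctr (sR R) T.1) (sR R) q R z - xT R T)) := Finset.sum_le_sum hterm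
    _ = (∑ l ∈ S.image (fun W : Pk m => W.2.1), ((1 + |c * P.1 - l|) ^ 2)⁻¹) *
        (3 ^ (N - 2) * wt (N - 2) (c • St (ctr (sR R) T.1) (sR R) q R z - xT R T)) := by
        rw [Finset.sum_image hinj, Finset.sum_mul]
    _ ≤ C * (3 ^ (N - 2) * wt (N - 2)
        (c • St (ctr (sR R) T.1) (sR R) q R z - xT R T)) := by
        refine mul_le_mul_of_nonneg_right (hC _ _) ?_
        unfold wt
        positivity
    _ = _ := by ring

theorem sum_lint {α ι : Type} [MeasurableSpace α] (μ : Measure α) (S : Finset ι)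
    (f : ι → α → ℝ≥0∞) : ∑ i ∈ S, ∫⁻ x, f i x ∂μ ≤ ∫⁻ x, ∑ i ∈ S, f i x ∂μ := by
  classical
  induction S using Finset.induction_on with
  | empty => simp
  | insert i S hi ih =>
    rw [Finset.sum_insert hi]
    refine (add_le_add le_rfl ih).trans ?_
    refine (le_lintegral_add _ _).trans ?_
    refine lintegral_mono fun x => ?_
    rw [Finset.sum_insert hi]

/-- (TBX) the energy in a tube -/
theorem pf_TBX (hAVX : T_AVX) (hPUB : T_PUB) (hSCH : T_SCH) (hCPS : T_CPS) : T_TBX := by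
  intro m L N β α δ hβ hδ hN
  classical
  obtain ⟨Cβ, hCβ1, hCβ⟩ := hPUB m L β hβ
  obtain ⟨C1, hC10, hC1⟩ := ptw m N (by omega)
  obtain ⟨C2, hC2⟩ := hAVX m (N - 2) (by omega)
  refine ⟨max 1 (C1 * C2 * Cβ ^ 2), le_max_left _ _, ?_⟩
  intro R A a b G S T hR hA ha hb hG hsup hEn hS hbS
  have hR0 : 0 < R := by linarith
  have hq1 : 1 ≤ Real.sqrt R := by
    rw [← Real.sqrt_one]
    exact Real.sqrt_le_sqrt hR
  have hq0 : 0 < Real.sqrt R := by linarith
  have hqq : Real.sqrt R ^ 2 = R := Real.sq_sqrt hR0.le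
  set q := Real.sqrt R with hq
  set s := sR R with hs
  have hsq : s = q⁻¹ := rfl
  have hs0 : 0 < s := by rw [hsq]; positivity
  have hs1 : s ≤ 1 := by rw [hsq]; exact inv_le_one_of_one_le₀ hq1
  have hRs : R * s = q := by
    rw [hsq, ← hqq]
    field_simp
  have hRs2 : R * s ^ 2 = 1 := by
    rw [hsq, ← hqq]
    field_simp
  set c : ℝ := R ^ (-δ) with hc
  have hc0 : 0 < c := Real.rpow_pos_of_pos hR0 _
  have hc1 : c ≤ 1 := Real.rpow_le_one_of_one_le_of_nonpos hR (by linarith)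
  set η : E m := ctr s T.1 with hη
  set F : Z m → ℝ≥0∞ := fun z => ‖TP β η s G z‖ₑ ^ 2 with hF
  have hTC : TC (fun ζ => cp β η s ζ * G ζ) :=
    hCPS m β η s G hβ.1 hs0 hG fun ζ hζ => by
      have := (hsup ζ hζ).1
      linarith
  have hcont : Continuous (TP β η s G) := (hSCH m _ hTC).1
  have hFm : Measurable F := hcont.measurable.enorm.pow_const 2
  set μ : ℝ := min (R ^ (α - m)) (q ^ (α - m)) with hμ
  have hμ0 : 0 ≤ μ := le_min (Real.rpow_nonneg hR0.le _) (Real.rpow_nonneg hq0.le _)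
  set S0 : ℝ := Cβ ^ 2 * (A ^ 2 * (R * (R * s) ^ m * μ)) with hS0
  have hS00 : 0 ≤ S0 := by positivity
  have hbox : ∀ z₁, ∫⁻ z in VX η s q R z₁, F z ≤ ENNReal.ofReal S0 := by
    intro z₁
    have h1 := hEn {η} (fun _ x => ((Cβ⁻¹ : ℝ) : ℂ) * β x) η s q z₁ (fun x _ => hCβ)
      (fun x hx y hy hxy => absurd ((Finset.mem_singleton.1 hx).trans
        (Finset.mem_singleton.1 hy).symm) hxy)
      (fun x hx => by
        rw [Finset.mem_singleton.1 hx, sub_self, norm_zero]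
        exact hs0.le) le_rfl hs1 (by rw [hRs2]; exact hq1) (by rw [hRs])
    rw [Finset.sum_singleton] at h1
    have h2 : ∀ z, F z = ENNReal.ofReal (Cβ ^ 2) *
        ‖TP (fun x => ((Cβ⁻¹ : ℝ) : ℂ) * β x) η s G z‖ₑ ^ 2 := by
      intro z
      have hCβ0 : (0 : ℝ) < Cβ := by linarith
      rw [hF]
      show ‖TP β η s G z‖ₑ ^ 2 = _
      rw [TP_smul, enorm_mul, mul_pow, ← mul_assoc]
      have h3 : ‖((Cβ⁻¹ : ℝ) : ℂ)‖ₑ = ENNReal.ofReal Cβ⁻¹ := by
        rw [← ofReal_norm, Complex.norm_real, Real.norm_of_nonneg (by positivity)]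
      rw [h3, ← ENNReal.ofReal_pow (by positivity), ← ENNReal.ofReal_mul (by positivity)]
      have h4 : Cβ ^ 2 * Cβ⁻¹ ^ 2 = 1 := by
        rw [← mul_pow, mul_inv_cancel₀ hCβ0.ne', one_pow]
      rw [h4, ENNReal.ofReal_one, one_mul]
    calc ∫⁻ z in VX η s q R z₁, F z
        = ENNReal.ofReal (Cβ ^ 2) * ∫⁻ z in VX η s q R z₁,
          ‖TP (fun x => ((Cβ⁻¹ : ℝ) : ℂ) * β x) η s G z‖ₑ ^ 2 := by
          rw [← lintegral_const_mul' _ _ ENNReal.ofReal_ne_top]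
          exact lintegral_congr fun z => h2 z
      _ ≤ ENNReal.ofReal (Cβ ^ 2) * ENNReal.ofReal (A ^ 2 * (R * (R * s) ^ m * μ)) := by
          gcongr
      _ = ENNReal.ofReal S0 := by
          rw [← ENNReal.ofReal_mul (by positivity)]
  have hav := hC2 F η s q R c (xT R T) (ENNReal.ofReal S0) hFm hs0 hq0 hR0 hc0 hc1 hbox
  set K : ℝ := R ^ (-(δ * ((m : ℝ) + 2))) * s ^ (m + 2) with hK
  have hK0 : 0 ≤ K := by positivity
  have hW1 : ∀ W ∈ S, W.1 = T.1 := by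
    intro W hW
    have h := (hS W hW).1
    rw [← h]
    rfl
  have key : ENNReal.ofReal (b * a ^ 2) ≤ ENNReal.ofReal (K * (C1 * (C2 * (c⁻¹) ^ (m + 2) * S0))) := by
    calc ENNReal.ofReal (b * a ^ 2) ≤ ENNReal.ofReal (S.card * a ^ 2) := by
          refine ENNReal.ofReal_le_ofReal ?_
          gcongr
      _ = ∑ W ∈ S, ENNReal.ofReal (a ^ 2) := by
          rw [Finset.sum_const, nsmul_eq_mul, ENNReal.ofReal_mul (by positivity),
            ENNReal.ofReal_natCast]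
      _ ≤ ∑ W ∈ S, al2 N β R δ G W := by
          refine Finset.sum_le_sum fun W hW => ?_
          have h1 := (hS W hW).2
          have h2 : a ^ 2 ≤ (al2 N β R δ G W).toReal := by
            unfold al at h1
            calc a ^ 2 ≤ (Real.sqrt (al2 N β R δ G W).toReal) ^ 2 := by gcongr
              _ = _ := Real.sq_sqrt ENNReal.toReal_nonneg
          exact (ENNReal.ofReal_le_ofReal h2).trans ENNReal.ofReal_toReal_le
      _ = ENNReal.ofReal K * ∑ W ∈ S, ∫⁻ z, F z *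
            ENNReal.ofReal (wt N (fc R δ W.1 z - zc W.2)) := by
          rw [Finset.mul_sum]
          refine Finset.sum_congr rfl fun W hW => ?_
          unfold al2
          rw [hW1 W hW]
      _ ≤ ENNReal.ofReal K * ∫⁻ z, ∑ W ∈ S, F z *
            ENNReal.ofReal (wt N (fc R δ W.1 z - zc W.2)) := by
          gcongr
          exact sum_lint _ _ _
      _ ≤ ENNReal.ofReal K * ∫⁻ z, ENNReal.ofReal C1 * (F z *
            ENNReal.ofReal (wt (N - 2) (c • St η s q R z - xT R T))) := by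
          gcongr with z
          rw [← Finset.mul_sum, ← ENNReal.ofReal_sum_of_nonneg fun W _ => by
            unfold wt; positivity]
          calc F z * ENNReal.ofReal (∑ W ∈ S, wt N (fc R δ W.1 z - zc W.2))
              ≤ F z * ENNReal.ofReal (C1 * wt (N - 2) (c • St η s q R z - xT R T)) := by
                gcongr
                exact hC1 R δ S T z hR fun W hW => (hS W hW).1
            _ = _ := by
                rw [ENNReal.ofReal_mul hC10]
                ring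
      _ = ENNReal.ofReal K * (ENNReal.ofReal C1 * ∫⁻ z, F z *
            ENNReal.ofReal (wt (N - 2) (c • St η s q R z - xT R T))) := by
          rw [lintegral_const_mul' _ _ ENNReal.ofReal_ne_top]
      _ ≤ ENNReal.ofReal K * (ENNReal.ofReal C1 * (C2 * ENNReal.ofReal ((c⁻¹) ^ (m + 2)) *
            ENNReal.ofReal S0)) := by
          gcongr
      _ = _ := by
          rw [ENNReal.ofReal_mul (p := K) hK0, ENNReal.ofReal_mul (p := C1) hC10,
            ENNReal.ofReal_mul (p := (C2 : ℝ) * (c⁻¹) ^ (m + 2)) (by positivity),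
            ENNReal.ofReal_mul (p := (C2 : ℝ)) (by positivity), ENNReal.ofReal_coe_nnreal]
  have hrhs0 : 0 ≤ K * (C1 * (C2 * (c⁻¹) ^ (m + 2) * S0)) := by positivity
  have key2 : b * a ^ 2 ≤ K * (C1 * (C2 * (c⁻¹) ^ (m + 2) * S0)) :=
    (ENNReal.ofReal_le_ofReal_iff hrhs0).1 key
  have hcm : R ^ (-(δ * ((m : ℝ) + 2))) * (c⁻¹) ^ (m + 2) = 1 := by
    rw [hc, ← Real.rpow_neg hR0.le, neg_neg, ← Real.rpow_natCast, ← Real.rpow_mul hR0.le,
      ← Real.rpow_add hR0]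
    have : -(δ * ((m : ℝ) + 2)) + δ * ((m + 2 : ℕ) : ℝ) = 0 := by push_cast; ring
    rw [this, Real.rpow_zero]
  have hsm : s ^ (m + 2) * (R * (R * s) ^ m) = 1 := by
    rw [hRs, hsq, inv_pow, pow_add, hqq]
    field_simp
  have key3 : b * a ^ 2 ≤ C1 * C2 * Cβ ^ 2 * (A ^ 2 * μ) := by
    refine key2.trans (le_of_eq ?_)
    rw [hK, hS0]
    calc R ^ (-(δ * ((m : ℝ) + 2))) * s ^ (m + 2) *
          (C1 * (C2 * (c⁻¹) ^ (m + 2) * (Cβ ^ 2 * (A ^ 2 * (R * (R * s) ^ m * μ)))))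
        = (R ^ (-(δ * ((m : ℝ) + 2))) * (c⁻¹) ^ (m + 2)) *
          (s ^ (m + 2) * (R * (R * s) ^ m)) * (C1 * C2 * Cβ ^ 2 * (A ^ 2 * μ)) := by ring
      _ = _ := by rw [hcm, hsm]; ring
  have hμR : μ * R ^ ((m : ℝ) / 2) ≤ R ^ (min (α / 2) (α - (m : ℝ) / 2)) := by
    rcases le_total (α / 2) (α - (m : ℝ) / 2) with h | h
    · rw [min_eq_left h]
      calc μ * R ^ ((m : ℝ) / 2) ≤ q ^ (α - m) * R ^ ((m : ℝ) / 2) := by
            gcongr
            exact min_le_right _ _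
        _ = R ^ (α / 2) := by
            rw [hq, Real.sqrt_eq_rpow, ← Real.rpow_mul hR0.le, ← Real.rpow_add hR0]
            congr 1
            ring
    · rw [min_eq_right h]
      calc μ * R ^ ((m : ℝ) / 2) ≤ R ^ (α - m) * R ^ ((m : ℝ) / 2) := by
            gcongr
            exact min_le_left _ _
        _ = R ^ (α - (m : ℝ) / 2) := by
            rw [← Real.rpow_add hR0]
            congr 1
            ring
  have hlo : 1 ≤ R ^ (lo m * δ) := by
    refine Real.one_le_rpow hR ?_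
    unfold lo
    positivity
  calc b * a ^ 2 * R ^ ((m : ℝ) / 2) ≤ C1 * C2 * Cβ ^ 2 * (A ^ 2 * μ) * R ^ ((m : ℝ) / 2) := by
        gcongr
    _ = C1 * C2 * Cβ ^ 2 * (A ^ 2 * (μ * R ^ ((m : ℝ) / 2))) := by ring
    _ ≤ C1 * C2 * Cβ ^ 2 * (A ^ 2 * R ^ (min (α / 2) (α - (m : ℝ) / 2))) := by gcongr
    _ ≤ max 1 (C1 * C2 * Cβ ^ 2) * (A ^ 2 * R ^ (min (α / 2) (α - (m : ℝ) / 2))) := by
        gcongr
        exact le_max_right _ _
    _ ≤ max 1 (C1 * C2 * Cβ ^ 2) * R ^ (lo m * δ) *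
          (A ^ 2 * R ^ (min (α / 2) (α - (m : ℝ) / 2))) := by
        refine mul_le_mul_of_nonneg_right ?_ (by positivity)
        exact le_mul_of_one_le_right (by positivity) hlo

end Pool.Agent.H13.FD
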